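import Pool.Agent.R217.BN.Final

set_option autoImplicit false

open MeasureTheory
open scoped ContDiff
open Pool.Agent.R217.BN

namespace Pool.Agent.Results.MP_6822f0_an.BoundaryMin

/-- In every dimension `n ≥ 3` and for every real `M` there are smooth positive coefficients
`a, b, c` on the unit ball such that every minimum point of `f` on the closed ball lies on the
sphere and is non-stationary for `f`, and nevertheless `lam_{0,*} ≤ -M`. -/
theorem result (n : ℕ) (hn : 3 ≤ n) (M : ℝ) :
    ∃ a b c : E n → ℝ, ContDiff ℝ ∞ a ∧ ContDiff ℝ ∞ b ∧ ContDiff ℝ ∞ c ∧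
      (∀ x, 0 < a x ∧ 0 < b x ∧ 0 < c x) ∧
      (∀ x ∈ closure (Metric.ball (0 : E n) 1),
        (∀ y ∈ closure (Metric.ball (0 : E n) 1), ff a c x ≤ ff a c y) →
          x ∈ frontier (Metric.ball (0 : E n) 1) ∧ gradient (ff a c) x ≠ 0) ∧
      lam0 (Metric.ball (0 : E n) 1) a b c ≤ ((-M : ℝ) : EReal) :=
  final hn M

end Pool.Agent.Results.MP_6822f0_an.BoundaryMin
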